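import Mathlib
import Pool.Agent.R343.LT2
import Pool.Agent.R343.LT4

set_option autoImplicit false

/-!
# Hall's conjecture for integers with compressible expansions

A word of letters is cut into `z` phrases (`LZ a N z`, Lempel and Ziv) if each phrase is empty, a
single letter, or a copy of a block that begins further to the left (the block may overlap the
phrase). For instance the word `u v ^ m w` has a number of phrases which does not depend on `m`.

1. Let `b, c ≥ 2` and `z` be given. For every `ε > 0` there is `C` such that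
   `log |x| < (2 + ε) log |d| + C` for all `d ≠ 0` and all integers `x`, `y` with `y ^ 2 = x ^ 3 + d`
   such that the digits of `x` in base `b` and the digits of `y` in base `c`, each read upwards or
   downwards, form words with `z` phrases. There is no restriction on the lengths of the phrases and
   of their periods.

2. More generally, let `p, q ≥ 1`, let `Γ` be a finitely generated group of rational numbers, and let
   `x` and `y` be sums of a fixed number of products `g w`, `g ∈ Γ`, `w` the value in a fixed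
   base of a word with `z` phrases of integral letters of absolute value at most `B` and of length
   `N`, `N log b ≤ M (1 + log max (|x| ^ p, |y| ^ q))`. If `y ^ q ≠ x ^ p`, then
   `max (|x| ^ p, |y| ^ q) ^ (1 - 1 / p - 1 / q - ε) ≤ C |y ^ q - x ^ p|`.

The proof: if no period of a phrase has a size between `δ' N` and `δ N`, then a product `D` of
numbers `b ^ π - 1` with `log D` at most a small multiple of `N` makes `D w` a sum of boundedly many
powers of `b` with bounded coefficients; the inequality of Hall for pairs of sums of `S`-units with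
small moving coefficients (`Pool.Agent.TH551.HA`) applies to `D ^ q x`, `D ^ p y`, and one of the
finitely many scales works.
-/

namespace Pool.Agent.Results.MP_9d7cd1_nt.LempelZivPairs

open Finset Pool.Agent.R343.LP Pool.Agent.R343.LT

theorem mordell (b c z : ℕ) (hb : 2 ≤ b) (hc : 2 ≤ c) (ε : ℝ) (hε : 0 < ε) :
    ∃ C : ℝ, ∀ d x y : ℤ, d ≠ 0 → y ^ 2 = x ^ 3 + d → LZDigits b z x → LZDigits c z y →
      Real.log |(x : ℝ)| < (2 + ε) * Real.log |(d : ℝ)| + C := by
  obtain ⟨δ, hδ⟩ : ∃ δ : ℝ, δ = (1 / 2 - 1 / (2 + ε)) / 3 := ⟨_, rfl⟩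
  have hδ0 : 0 < δ := by
    rw [hδ]
    have h1 : 1 / (2 + ε) < 1 / 2 := one_div_lt_one_div_of_lt (by norm_num) (by linarith)
    linarith
  have hlb : 0 ≤ Real.log b := Real.log_nonneg (by
    have : 1 ≤ b := by omega
    exact_mod_cast this)
  have hlc : 0 ≤ Real.log c := Real.log_nonneg (by
    have : 1 ≤ c := by omega
    exact_mod_cast this)
  obtain ⟨C, hC0, hC⟩ := hallLZ 3 2 (by norm_num) (by norm_num) ⊥ ⟨∅, by simp⟩
    (fun _ : Fin 1 => b) (fun _ => hb) (fun _ : Fin 1 => c) (fun _ => hc) z (max b c : ℕ)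
    (Int.natCast_nonneg _) (1 + Real.log b + Real.log c) δ (by positivity) hδ0
  refine ⟨(2 + ε) * |Real.log C| + 1, ?_⟩
  intro d x y hd hxy hx hy
  have hd1 : (1 : ℝ) ≤ |(d : ℝ)| := by
    have : 1 ≤ |d| := Int.one_le_abs hd
    exact_mod_cast this
  have hlogd : 0 ≤ Real.log |(d : ℝ)| := Real.log_nonneg hd1
  have hpos : 0 ≤ (2 + ε) * |Real.log C| := by positivity
  by_cases hx0 : x = 0
  · rw [hx0, Int.cast_zero, abs_zero, Real.log_zero]
    nlinarith
  have hne : y ^ 2 ≠ x ^ 3 := by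
    rw [hxy]
    intro h2
    apply hd
    linarith
  have hZ1 := one_le_max (p := 3) (q := 2) (by norm_num) (by norm_num) hne
  obtain ⟨Z, hZ⟩ : ∃ Z : ℝ, Z = max (|(x : ℝ)| ^ 3) (|(y : ℝ)| ^ 2) := ⟨_, rfl⟩
  rw [← hZ] at hZ1
  have hlZ : 0 ≤ Real.log Z := Real.log_nonneg hZ1
  have hxZ : max 1 |(x : ℝ)| ≤ Z := by
    refine max_le hZ1 ?_
    have h1 : (1 : ℝ) ≤ |(x : ℝ)| := by
      have : 1 ≤ |x| := Int.one_le_abs hx0
      exact_mod_cast this
    calc |(x : ℝ)| = |(x : ℝ)| ^ 1 := (pow_one _).symm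
      _ ≤ |(x : ℝ)| ^ 3 := pow_le_pow_right₀ h1 (by norm_num)
      _ ≤ Z := by rw [hZ]; exact le_max_left _ _
  have hyZ : max 1 |(y : ℝ)| ≤ Z := by
    refine max_le hZ1 ?_
    by_cases hy0 : y = 0
    · rw [hy0, Int.cast_zero, abs_zero]
      linarith
    have h1 : (1 : ℝ) ≤ |(y : ℝ)| := by
      have : 1 ≤ |y| := Int.one_le_abs hy0
      exact_mod_cast this
    calc |(y : ℝ)| = |(y : ℝ)| ^ 1 := (pow_one _).symm
      _ ≤ |(y : ℝ)| ^ 2 := pow_le_pow_right₀ h1 (by norm_num)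
      _ ≤ Z := by rw [hZ]; exact le_max_right _ _
  have hbx : LZWd b z (max b c : ℕ) ((1 + Real.log b + Real.log c) * (1 + Real.log Z)) x := by
    have h1 := places_le hb x
    have h2 : Real.log (max 1 |(x : ℝ)|) ≤ Real.log Z := Real.log_le_log (by positivity) hxZ
    obtain ⟨a, N, e1, e2, e3, e4⟩ := hx.toWd hb (Λ := (1 + Real.log b + Real.log c) *
      (1 + Real.log Z)) (by nlinarith [mul_nonneg hlb hlZ, mul_nonneg hlc hlZ])
    exact ⟨a, N, e1, fun j hj => (e2 j hj).trans (by exact_mod_cast le_max_left _ _), e3, e4⟩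
  have hcy : LZWd c z (max b c : ℕ) ((1 + Real.log b + Real.log c) * (1 + Real.log Z)) y := by
    have h1 := places_le hc y
    have h2 : Real.log (max 1 |(y : ℝ)|) ≤ Real.log Z := Real.log_le_log (by positivity) hyZ
    obtain ⟨a, N, e1, e2, e3, e4⟩ := hy.toWd hc (Λ := (1 + Real.log b + Real.log c) *
      (1 + Real.log Z)) (by nlinarith [mul_nonneg hlb hlZ, mul_nonneg hlc hlZ])
    exact ⟨a, N, e1, fun j hj => (e2 j hj).trans (by exact_mod_cast le_max_right _ _), e3, e4⟩
  have h1 := hC x y hne (by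
    rw [← hZ]
    exact ⟨fun _ => 1, fun _ => x, fun _ => Subgroup.mem_bot.2 rfl, fun _ => hbx, by simp⟩) (by
    rw [← hZ]
    exact ⟨fun _ => 1, fun _ => y, fun _ => Subgroup.mem_bot.2 rfl, fun _ => hcy, by simp⟩)
  have h2 : (y : ℝ) ^ 2 - (x : ℝ) ^ 3 = d := by
    have h3 : ((y ^ 2 : ℤ) : ℝ) = ((x ^ 3 + d : ℤ) : ℝ) := by rw [hxy]
    push_cast at h3
    linarith
  rw [h2] at h1
  have hexp : 1 - 1 / ((3 : ℕ) : ℝ) - 1 / ((2 : ℕ) : ℝ) - δ = 1 / (3 * (2 + ε)) := by
    rw [hδ]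
    have : (2 : ℝ) + ε ≠ 0 := by positivity
    push_cast
    field_simp
    ring
  rw [hexp] at h1
  have hx1 : 0 < |(x : ℝ)| := abs_pos.2 (by exact_mod_cast hx0)
  have h3 : |(x : ℝ)| ^ (1 / (2 + ε)) ≤ C * |(d : ℝ)| := by
    refine le_trans ?_ h1
    calc |(x : ℝ)| ^ (1 / (2 + ε)) = (|(x : ℝ)| ^ 3) ^ (1 / (3 * (2 + ε))) := by
          rw [← Real.rpow_natCast, ← Real.rpow_mul hx1.le]
          congr 1
          have : (2 : ℝ) + ε ≠ 0 := by positivity
          push_cast
          field_simp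
      _ ≤ _ := Real.rpow_le_rpow (by positivity) (le_max_left _ _) (by positivity)
  have h4 := Real.log_le_log (by positivity) h3
  rw [Real.log_rpow hx1, Real.log_mul hC0.ne' (by positivity)] at h4
  have h5 : Real.log |(x : ℝ)| ≤ (2 + ε) * (Real.log C + Real.log |(d : ℝ)|) := by
    have h6 : 0 < 2 + ε := by positivity
    have h7 : Real.log |(x : ℝ)| = (2 + ε) * (1 / (2 + ε) * Real.log |(x : ℝ)|) := by
      field_simp
    rw [h7]
    exact mul_le_mul_of_nonneg_left h4 h6.le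
  have h6 : (2 + ε) * Real.log C ≤ (2 + ε) * |Real.log C| :=
    mul_le_mul_of_nonneg_left (le_abs_self _) (by positivity)
  nlinarith

/-- The result: (1) the inequality of Hall for the integral points of all Mordell curves whose
coordinates have compressible digits, (2) the general form. -/
theorem result :
    (∀ b c z : ℕ, 2 ≤ b → 2 ≤ c → ∀ ε : ℝ, 0 < ε →
      ∃ C : ℝ, ∀ d x y : ℤ, d ≠ 0 → y ^ 2 = x ^ 3 + d → LZDigits b z x → LZDigits c z y →
        Real.log |(x : ℝ)| < (2 + ε) * Real.log |(d : ℝ)| + C) ∧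
    (∀ p q : ℕ, 1 ≤ p → 1 ≤ q → ∀ Γ : Subgroup ℚˣ, Γ.FG → ∀ (r r' : ℕ) (b : Fin r → ℕ)
      (b' : Fin r' → ℕ), (∀ i, 2 ≤ b i) → (∀ i, 2 ≤ b' i) → ∀ (z : ℕ) (B : ℤ), 0 ≤ B →
      ∀ M ε : ℝ, 0 ≤ M → 0 < ε →
      ∃ C : ℝ, 0 < C ∧ ∀ x y : ℤ, y ^ q ≠ x ^ p →
        Comp Γ b z B (M * (1 + Real.log (max (|(x : ℝ)| ^ p) (|(y : ℝ)| ^ q)))) x →
        Comp Γ b' z B (M * (1 + Real.log (max (|(x : ℝ)| ^ p) (|(y : ℝ)| ^ q)))) y →
        (max (|(x : ℝ)| ^ p) (|(y : ℝ)| ^ q)) ^ (1 - 1 / (p : ℝ) - 1 / (q : ℝ) - ε) ≤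
          C * |(y : ℝ) ^ q - (x : ℝ) ^ p|) := by
  refine ⟨fun b c z hb hc ε hε => mordell b c z hb hc ε hε, ?_⟩
  intro p q hp hq Γ hΓ r r' b b' hb hb' z B hB M ε hM hε
  exact hallLZ p q hp hq Γ hΓ b hb b' hb' z B hB M ε hM hε

end Pool.Agent.Results.MP_9d7cd1_nt.LempelZivPairs
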