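import Pool.Agent.R728.RC.Hall

/-!
# Hall's conjecture on integral points and congruences to random residues

Let `𝓜` be a set of moduli with `∑ m ^ (-s) < ∞` (the squareful numbers for `s > 1 / 2`, which
contain the powers `p ^ k`, `k ≥ 2`, of all primes; the powers of one number for `s > 0`), and let
`X m` be random residues modulo `m`, each value of which has probability at most `A m ^ (-θ)`,
`θ > s`. No independence is assumed: for instance the residues of a random profinite integer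
(`θ = 1`), of a random point of a Cantor set of `p`-adic integers of dimension `θ`, or of `[m α]`.
Let `φ m` be any maps from the pairs of integers to the residues modulo `m`. Almost surely, for all
`τ > 1 / (3 (θ - s))` there is `C` such that `log |x| < 2 log |d| + C` for ALL `d ≠ 0` and all
integral points `(x, y)` of `y ^ 2 = x ^ 3 + d` with `φ m (x, y) = X m` for some `m ≥ |x| ^ τ` in
`𝓜`, for example `x ≡ X m` modulo `m`. For `ε > 0` the inequality of the question,
`log |x| < (2 + ε) log |d| + C`, holds for smaller `τ`.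
-/

set_option autoImplicit false

namespace Pool.Agent.Results.MP_9d7cd1_nt.RandomResidues

open MeasureTheory

/-- every prime dividing `m` divides it at least twice -/
def Squareful (m : ℕ) : Prop := 0 < m ∧ ∀ p : ℕ, p.Prime → p ∣ m → p ^ 2 ∣ m

/-- **Theorem.** Let `𝓜` be a set of positive integers with a convergent sum of the `m ^ (-s)`, and
`X m` random residues modulo `m`, each value of which has probability at most `A m ^ (-θ)`, where
`s < θ` (no independence is assumed), and `φ m` any maps from the pairs of integers to the residues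
modulo `m`. Almost surely, for all `ε ≥ 0` and `τ` with `(8 + 3 ε) / (12 (2 + ε)) < (θ - s) τ` there
is `C` such that `log |x| < (2 + ε) log |d| + C` for all `m` in `𝓜`, all `d ≠ 0` and all integers
`x ≠ 0`, `y` with `y ^ 2 = x ^ 3 + d`, `|x| ^ τ ≤ m` and `φ m (x, y) = X m`.

The sum of the `m ^ (-s)` over the squareful numbers converges for `s > 1 / 2`, and that over
the powers of an integer `b ≥ 2` for `s > 0`. -/
theorem result :
    (∀ (𝓜 : Set ℕ) (s θ A : ℝ) (Ω : Type) [MeasurableSpace Ω] (P : Measure Ω)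
      (X : ∀ m : ℕ, Ω → ZMod m) (φ : ∀ m : ℕ, ℤ × ℤ → ZMod m),
      (∀ m ∈ 𝓜, 0 < m) → s < θ → (Summable fun m : 𝓜 => ((m : ℕ) : ℝ) ^ (-s)) →
      (∀ m ∈ 𝓜, ∀ r : ZMod m, P {ω | X m ω = r} ≤ ENNReal.ofReal (A * (m : ℝ) ^ (-θ))) →
      ∀ᵐ ω ∂P, ∀ ε τ : ℝ, 0 ≤ ε → (8 + 3 * ε) / (12 * (2 + ε)) < (θ - s) * τ →
        ∃ C : ℝ, ∀ m ∈ 𝓜, ∀ d x y : ℤ, d ≠ 0 → x ≠ 0 → y ^ 2 = x ^ 3 + d →
          |(x : ℝ)| ^ τ ≤ m → φ m (x, y) = X m ω →
          Real.log |(x : ℝ)| < (2 + ε) * Real.log |(d : ℝ)| + C) ∧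
    (∀ s : ℝ, 1 / 2 < s → Summable fun m : {m : ℕ | Squareful m} => ((m : ℕ) : ℝ) ^ (-s)) ∧
    ∀ b : ℕ, 2 ≤ b → ∀ s : ℝ, 0 < s →
      Summable fun m : {m : ℕ | ∃ k : ℕ, m = b ^ k} => ((m : ℕ) : ℝ) ^ (-s) := by
  refine ⟨fun 𝓜 s θ A Ω _ P X φ h0 hs hsum hX => ?_, fun s hs => ?_, fun b hb s hs => ?_⟩
  · filter_upwards [Pool.Agent.R728.RC.Hall.const_all (φ := φ) h0 hs hsum hX] with ω h1 ε τ hε hτ
    have h2 : 0 < 2 + ε := by linarith
    have h3 : (0 : ℝ) < 1 / (2 + ε) := by positivity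
    have h4 : 1 / (2 + ε) ≤ 1 / 2 := one_div_le_one_div_of_le (by norm_num) (by linarith)
    have h5 : 1 / 3 - (1 / 2 - 1 / (2 + ε)) / 6 = (8 + 3 * ε) / (12 * (2 + ε)) := by
      field_simp
      ring
    obtain ⟨c, hc, h6⟩ := h1 (1 / 2 - 1 / (2 + ε)) τ (by linarith) (by linarith)
      (by rw [h5]; exact hτ)
    refine ⟨-((2 + ε) * Real.log c), fun m hm d x y hd hx hxy hxm hφ => ?_⟩
    have hne : y ^ 2 ≠ x ^ 3 := by
      intro h
      rw [h] at hxy
      exact hd (by linarith)
    have h7 := h6 m hm x y hne hxm hφ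
    have hdd : (y : ℝ) ^ 2 - (x : ℝ) ^ 3 = (d : ℝ) := by
      have : (y : ℝ) ^ 2 = (x : ℝ) ^ 3 + d := by exact_mod_cast hxy
      rw [this]
      ring
    rw [hdd] at h7
    have hx0 : (0 : ℝ) < |(x : ℝ)| := abs_pos.2 (by exact_mod_cast hx)
    have h8 : (1 : ℝ) / 2 - (1 / 2 - 1 / (2 + ε)) = 1 / (2 + ε) := by ring
    rw [h8] at h7
    have h9 := Real.log_lt_log (by positivity) h7
    rw [Real.log_mul hc.ne' (by positivity), Real.log_rpow hx0] at h9
    have h10 : (2 + ε) * (Real.log c + 1 / (2 + ε) * Real.log |(x : ℝ)|) <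
        (2 + ε) * Real.log |(d : ℝ)| := mul_lt_mul_of_pos_left h9 h2
    have h11 : (2 + ε) * (Real.log c + 1 / (2 + ε) * Real.log |(x : ℝ)|) =
        (2 + ε) * Real.log c + Real.log |(x : ℝ)| := by
      field_simp
    rw [h11] at h10
    linarith
  · exact Pool.Agent.R728.RC.summable_squareful hs
  · exact Pool.Agent.R728.RC.summable_powers hb hs

end Pool.Agent.Results.MP_9d7cd1_nt.RandomResidues
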