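import Pool.Agent.R909.RSHall

/-!
# Hall's conjecture on integral points and random sets of integers

Let `A`, `A'` be random sets of integers such that `x ∈ A` and `y ∈ A'` with probability at most
`C₀ |x| ^ (-γ) |y| ^ (-γ')`. Almost surely, for all `ε ≥ 0` with
`(8 + 3 ε) / (12 (2 + ε)) < γ + 3 γ' / 2` (for `ε = 0`: `1 / 3 < γ + 3 γ' / 2`) there is `C` such that
`log |x| < (2 + ε) log |d| + C` for ALL `d ≠ 0` and all integral points of `y ^ 2 = x ^ 3 + d` with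
`x ∈ A`, `x ≠ 0`, and `y ∈ A'`.
-/

set_option autoImplicit false

namespace Pool.Agent.Results.MP_9d7cd1_nt.RandomSets

open MeasureTheory

/-- the integers `x`, `y` belong to the random sets `A`, `A'` with probability at most
`C * |x| ^ (-γ) * |y| ^ (-γ')` -/
def Sparse {Ω : Type} [MeasurableSpace Ω] (P : Measure Ω) (A A' : Ω → Set ℤ) (γ γ' C : ℝ) : Prop :=
  ∀ x y : ℤ, x ≠ 0 → y ≠ 0 →
    P {ω | x ∈ A ω ∧ y ∈ A' ω} ≤ ENNReal.ofReal (C * |(x : ℝ)| ^ (-γ) * |(y : ℝ)| ^ (-γ'))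

/-- **Theorem.** Let `A`, `A'` be random sets of integers such that `x ∈ A` and `y ∈ A'` with
probability at most `C₀ |x| ^ (-γ) |y| ^ (-γ')`, for all `x, y ≠ 0`, where `γ' ≥ 0`.

(1) Almost surely, for all `ε ≥ 0` with `(8 + 3 ε) / (12 (2 + ε)) < γ + 3 γ' / 2` there is `C` such
that `log |x| < (2 + ε) log |d| + C` for all `d ≠ 0` and all `x ∈ A`, `x ≠ 0`, and `y ∈ A'` with
`y ^ 2 = x ^ 3 + d`.

(2) If `ε ≥ 0`, `η ≥ 0` and `(8 + 3 ε) / (12 (2 + ε)) + η < γ + 3 γ' / 2`, then for every `C` there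
is `B` such that the probability that `log |x| ≥ (2 + ε) log |d| + C` for some `d ≠ 0`, `x ∈ A` and
`y ∈ A'`, `y ≠ 0`, with `y ^ 2 = x ^ 3 + d` and `|x| ≥ X`, is at most `B X ^ (-η)`, for all
`X ≥ 1`. -/
theorem result (Ω : Type) [MeasurableSpace Ω] (P : Measure Ω) (A A' : Ω → Set ℤ) (γ γ' C₀ : ℝ)
    (hA : Sparse P A A' γ γ' C₀) (hγ' : 0 ≤ γ') :
    (∀ᵐ ω ∂P, ∀ ε : ℝ, 0 ≤ ε → (8 + 3 * ε) / (12 * (2 + ε)) < γ + 3 / 2 * γ' →
      ∃ C : ℝ, ∀ d x y : ℤ, d ≠ 0 → x ≠ 0 → x ∈ A ω → y ∈ A' ω → y ^ 2 = x ^ 3 + d →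
        Real.log |(x : ℝ)| < (2 + ε) * Real.log |(d : ℝ)| + C) ∧
    (∀ ε η C : ℝ, 0 ≤ ε → 0 ≤ η → (8 + 3 * ε) / (12 * (2 + ε)) + η < γ + 3 / 2 * γ' →
      ∃ B : ℝ, ∀ X : ℝ, 1 ≤ X →
        P {ω | ∃ d x y : ℤ, d ≠ 0 ∧ x ∈ A ω ∧ y ∈ A' ω ∧ y ≠ 0 ∧ X ≤ |(x : ℝ)| ∧
          y ^ 2 = x ^ 3 + d ∧ (2 + ε) * Real.log |(d : ℝ)| + C ≤ Real.log |(x : ℝ)|} ≤
          ENNReal.ofReal (B * X ^ (-η))) := by
  have h3 : ∀ ε : ℝ, 0 ≤ ε → (0 : ℝ) < 1 / (2 + ε) ∧ 1 / (2 + ε) ≤ 1 / 2 ∧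
      1 / 3 - (1 / 2 - 1 / (2 + ε)) / 6 = (8 + 3 * ε) / (12 * (2 + ε)) := by
    intro ε hε
    have h2 : 0 < 2 + ε := by linarith
    refine ⟨by positivity, one_div_le_one_div_of_le (by norm_num) (by linarith), ?_⟩
    field_simp
    ring
  constructor
  · filter_upwards [Pool.Agent.R909.RSHall.const_all hA hγ'] with ω h1 ε hε hτ
    obtain ⟨h31, h4, h5⟩ := h3 ε hε
    have h2 : 0 < 2 + ε := by linarith
    obtain ⟨c, hc, h6⟩ := h1 (1 / 2 - 1 / (2 + ε)) (by linarith) (by linarith)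
      (by rw [h5]; exact hτ)
    refine ⟨-((2 + ε) * Real.log c), fun d x y hd hx hxA hyA hxy => ?_⟩
    have hne : y ^ 2 ≠ x ^ 3 := by
      intro h
      rw [h] at hxy
      exact hd (by linarith)
    have h7 := h6 x hxA y hyA hne
    have hdd : (y : ℝ) ^ 2 - (x : ℝ) ^ 3 = (d : ℝ) := by
      have : (y : ℝ) ^ 2 = (x : ℝ) ^ 3 + d := by exact_mod_cast hxy
      rw [this]
      ring
    rw [hdd] at h7
    have hx0 : (0 : ℝ) < |(x : ℝ)| := abs_pos.2 (by exact_mod_cast hx)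
    have h8 : (1 : ℝ) / 2 - (1 / 2 - 1 / (2 + ε)) = 1 / (2 + ε) := by ring
    rw [h8] at h7
    have h9 := Real.log_lt_log (by positivity) h7
    rw [Real.log_mul hc.ne' (by positivity), Real.log_rpow hx0] at h9
    have h10 : (2 + ε) * (Real.log c + 1 / (2 + ε) * Real.log |(x : ℝ)|) <
        (2 + ε) * Real.log |(d : ℝ)| := mul_lt_mul_of_pos_left h9 h2
    have h11 : (2 + ε) * (Real.log c + 1 / (2 + ε) * Real.log |(x : ℝ)|) =
        (2 + ε) * Real.log c + Real.log |(x : ℝ)| := by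
      field_simp
    rw [h11] at h10
    linarith
  · intro ε η C hε hη h
    obtain ⟨h31, h4, h5⟩ := h3 ε hε
    have h2 : 0 < 2 + ε := by linarith
    obtain ⟨B, hB⟩ := (Pool.Agent.R909.RSHall.one hA hγ' (Real.exp (-(C / (2 + ε))))
      (δ := 1 / 2 - 1 / (2 + ε)) (η := η) (by linarith) (by linarith) hη
      (by rw [h5]; exact h)).2
    refine ⟨B, fun X hX => (measure_mono ?_).trans (hB X hX)⟩
    rintro ω ⟨d, x, y, hd, hx, hy, hy0, hX1, hxy, h6⟩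
    have hne : y ^ 2 ≠ x ^ 3 := by
      intro h
      rw [h] at hxy
      exact hd (by linarith)
    have hdd : (y : ℝ) ^ 2 - (x : ℝ) ^ 3 = (d : ℝ) := by
      have : (y : ℝ) ^ 2 = (x : ℝ) ^ 3 + d := by exact_mod_cast hxy
      rw [this]
      ring
    have hx0 : (0 : ℝ) < |(x : ℝ)| := by linarith
    have hd0 : (0 : ℝ) < |(d : ℝ)| := abs_pos.2 (by exact_mod_cast hd)
    refine ⟨(x, y), ⟨⟨hne, ?_⟩, hy0⟩, hX1, hx, hy⟩
    show |(y : ℝ) ^ 2 - (x : ℝ) ^ 3| ≤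
      Real.exp (-(C / (2 + ε))) * |(x : ℝ)| ^ (1 / 2 - (1 / 2 - 1 / (2 + ε)))
    rw [hdd, show (1 : ℝ) / 2 - (1 / 2 - 1 / (2 + ε)) = 1 / (2 + ε) by ring,
      Real.rpow_def_of_pos hx0, ← Real.exp_add, ← Real.log_le_iff_le_exp hd0]
    have h7 : Real.log |(d : ℝ)| ≤ (Real.log |(x : ℝ)| - C) / (2 + ε) := by
      rw [le_div_iff₀ h2]
      linarith
    refine h7.trans (le_of_eq ?_)
    field_simp
    ring

end Pool.Agent.Results.MP_9d7cd1_nt.RandomSets
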