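import Pool.Agent.R942.HX.Hall
import Pool.Agent.R942.HX.Rand

/-!
# Hall's inequality for the integral points near typical points, for arbitrary maps

We consider the integral points `(x, y)` of the curves `y ^ 2 = x ^ 3 + d`, `x ≠ 0`, `d ≠ 0`, and the
inequality `log |x| < (2 + ε) log |d| + c` of the question, `ε ≥ 0` (also for `ε = 0`, Hall's original
conjecture). Let `g (ε) = (8 + 3 ε) / (12 (2 + ε))`, so that `g (0) = 1 / 3`; it decreases to `1 / 4`.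

(1) Let `μ` be any outer measure on a set `X` and let countably many subsets `B (x, y) n` of `X` be
attached to each pair `(x, y)`, with `∑ n, μ (B (x, y) n) ≤ C |x| ^ (-δ)`, `δ > g (ε)`. Then for
`μ`-almost every `z` and every `c` only finitely many pairs `(x, y)`, `n` with `z ∈ B (x, y) n`
violate the inequality.

(2) If `X` is a metric space and `∑ n, diam (B (x, y) n) ^ s ≤ C |x| ^ (-δ)`, `δ > g (ε)`, then this
holds for each `c` for all `z` outside a set of Hausdorff dimension at most `s`.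

(3) Let `φ` be any map from the pairs of integers to a metric space `X` and `v > 0`. For all `z` in `X`
outside a set of Hausdorff dimension at most `g (ε) / v` there is `c` such that ALL integral points
`(x, y)` with `dist (φ (x, y), z) ≤ |x| ^ (-v)` satisfy `log |x| < (2 + ε) log |d| + c`.

(4) Let `X i` be random points of a metric space, of any joint distribution, with
`P (dist (X i, z) ≤ r) ≤ A r ^ s` for all `i`, `z`, `r`, let `φ i` be any maps from the pairs of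
integers to that space and `F (x, y)` sets of at most `K |x| ^ u` indices. If `s v - u > g (ε)`, there
is almost surely `c` such that ALL integral points `(x, y)` with `dist (X i, φ i (x, y)) ≤ |x| ^ (-v)`
for some `i` in `F (x, y)` satisfy the inequality.

(5) For almost every real number `α` and all bases `b ≥ 2`, `ε ≥ 0`, `u ≥ 0` and `v > u + g (ε)` there
is `c` such that the inequality holds for ALL integral points `(x, y)` for which `|x| ^ (-v)`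
approximates the distance to the integers of `|x| / b ^ i - b ^ m α` for some `i` with
`b ^ i ≤ b |x|` and some `m ≤ |x| ^ u`: points whose abscissa contains, at any place, (more than) `v k`
consecutive digits, `k` the number of its digits, which are also consecutive digits of `α`, at any place up
to the `|x| ^ u`-th one.
-/

set_option autoImplicit false

namespace Pool.Agent.Results.MP_9d7cd1_nt.TypicalPoints

open Pool.Agent.R942.HX MeasureTheory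

/-- a value `a` which is rational, at most `ε`, with `g a` close to `g ε` -/
lemma exists_rat {ε G : ℝ} (hε : 0 ≤ ε) (h : g ε < G) :
    ∃ a : ℚ, (0 : ℝ) ≤ a ∧ (a : ℝ) ≤ ε ∧ g a < G := by
  rcases hε.eq_or_lt with h0 | h0
  · exact ⟨0, by simp, by simp [← h0], by rw [← h0] at h; simpa using h⟩
  · have h2 : 0 < 2 + ε := by linarith
    have e1 : ∀ a : ℝ, 0 ≤ a → g a = 1 / 4 + 1 / (6 * (2 + a)) := by
      intro a ha
      have : 0 < 2 + a := by linarith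
      unfold g
      field_simp
      ring
    rw [e1 ε hε] at h
    have h3 : 0 < G - 1 / 4 := by
      have : 0 < 1 / (6 * (2 + ε)) := by positivity
      linarith
    have h4 : 1 / (6 * (G - 1 / 4)) - 2 < ε := by
      rw [sub_lt_iff_lt_add, div_lt_iff₀ (by positivity)]
      have h5 : 1 / (6 * (2 + ε)) < G - 1 / 4 := by linarith
      rw [div_lt_iff₀ (by positivity)] at h5
      linarith
    obtain ⟨a, ha1, ha2⟩ := exists_rat_btwn (max_lt h0 h4)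
    have ha0 : (0 : ℝ) ≤ a := (le_max_left _ _).trans ha1.le
    refine ⟨a, ha0, ha2.le, ?_⟩
    rw [e1 a ha0]
    have h6 := (le_max_right 0 (1 / (6 * (G - 1 / 4)) - 2)).trans_lt ha1
    rw [sub_lt_iff_lt_add, div_lt_iff₀ (by positivity)] at h6
    have h7 : 1 / (6 * (2 + (a : ℝ))) < G - 1 / 4 := by
      rw [div_lt_iff₀ (by positivity)]
      linarith
    linarith

/-- the points whose abscissa and `α` have long common strings of digits -/
def Near (b : ℕ) (α u v : ℝ) : Set (ℤ × ℤ) :=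
  {e | ∃ i m : ℕ, ∃ j : ℤ, (b : ℝ) ^ i ≤ b * |(e.1 : ℝ)| ∧ (m : ℝ) ≤ |(e.1 : ℝ)| ^ u ∧
    |(|(e.1 : ℝ)| / (b : ℝ) ^ i - (b : ℝ) ^ m * α - j)| ≤ |(e.1 : ℝ)| ^ (-v)}

lemma near_finite (b : ℕ) (hb : 2 ≤ b) {ε u v : ℝ} (hε : 0 ≤ ε) (hu : 0 ≤ u) (hv : u + g ε < v) :
    ∀ᵐ α : ℝ, {e | e ∈ Exc ε 0 ∧ e ∈ Near b α u v}.Finite := by
  have hb1 : (1 : ℝ) < b := by exact_mod_cast hb
  have hlogb : 0 < Real.log b := Real.log_pos hb1
  set η : ℝ := (v - u - g ε) / 2 with hη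
  have hη0 : 0 < η := by rw [hη]; linarith
  have hcard : ∀ e : ℤ × ℤ, e ∈ Exc ε 0 →
      (((Finset.range (⌊1 + Real.log |(e.1 : ℝ)| / Real.log b⌋₊ + 1) ×ˢ
        Finset.range (⌊|(e.1 : ℝ)| ^ u⌋₊ + 1)).card : ℕ) : ℝ) ≤
        ((2 + 1 / (η * Real.log b)) * 2) * |(e.1 : ℝ)| ^ (u + η) := by
    intro e he
    have hx := one_le_x he.1
    have hx0 : 0 < |(e.1 : ℝ)| := by linarith
    have hL : 0 ≤ Real.log |(e.1 : ℝ)| / Real.log b := div_nonneg (Real.log_nonneg hx) hlogb.le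
    have hxu : 1 ≤ |(e.1 : ℝ)| ^ u := Real.one_le_rpow hx hu
    have hxη : 1 ≤ |(e.1 : ℝ)| ^ η := Real.one_le_rpow hx hη0.le
    rw [Finset.card_product, Finset.card_range, Finset.card_range]
    push_cast
    have h1 : (⌊1 + Real.log |(e.1 : ℝ)| / Real.log b⌋₊ : ℝ) + 1 ≤
        (2 + 1 / (η * Real.log b)) * |(e.1 : ℝ)| ^ η := by
      have h2 := Nat.floor_le (show 0 ≤ 1 + Real.log |(e.1 : ℝ)| / Real.log b by linarith)
      have h3 := Real.log_le_rpow_div hx0.le hη0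
      have h4 : Real.log |(e.1 : ℝ)| / Real.log b ≤ 1 / (η * Real.log b) * |(e.1 : ℝ)| ^ η := by
        rw [div_le_iff₀ hlogb]
        calc Real.log |(e.1 : ℝ)| ≤ |(e.1 : ℝ)| ^ η / η := h3
          _ = 1 / (η * Real.log b) * |(e.1 : ℝ)| ^ η * Real.log b := by
            field_simp
      nlinarith
    have h5 : (⌊|(e.1 : ℝ)| ^ u⌋₊ : ℝ) + 1 ≤ 2 * |(e.1 : ℝ)| ^ u := by
      have := Nat.floor_le (show 0 ≤ |(e.1 : ℝ)| ^ u by linarith)
      linarith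
    calc ((⌊1 + Real.log |(e.1 : ℝ)| / Real.log b⌋₊ : ℝ) + 1) * ((⌊|(e.1 : ℝ)| ^ u⌋₊ : ℝ) + 1)
        ≤ ((2 + 1 / (η * Real.log b)) * |(e.1 : ℝ)| ^ η) * (2 * |(e.1 : ℝ)| ^ u) :=
          mul_le_mul h1 h5 (by positivity) (by positivity)
      _ = ((2 + 1 / (η * Real.log b)) * 2) * (|(e.1 : ℝ)| ^ u * |(e.1 : ℝ)| ^ η) := by ring
      _ = ((2 + 1 / (η * Real.log b)) * 2) * |(e.1 : ℝ)| ^ (u + η) := by
          rw [← Real.rpow_add hx0]
  have h1 := (sparse hε 0).multiples (g_pos hε).le (ι := ℕ × ℕ) (fun p => (b : ℤ) ^ p.2)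
    (fun p => pow_ne_zero _ (by exact_mod_cast (by omega : b ≠ 0)))
    (fun p e => |(e.1 : ℝ)| / (b : ℝ) ^ p.1)
    (fun e => Finset.range (⌊1 + Real.log |(e.1 : ℝ)| / Real.log b⌋₊ + 1) ×ˢ
      Finset.range (⌊|(e.1 : ℝ)| ^ u⌋₊ + 1)) (v := v) hcard (by rw [hη]; linarith)
  filter_upwards [h1] with α hα
  refine hα.subset ?_
  rintro e ⟨he, i, m, j, hi, hm, hj⟩
  refine ⟨he, (i, m), ?_, j, ?_⟩
  · have hx := one_le_x he.1
    have hx0 : 0 < |(e.1 : ℝ)| := by linarith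
    rw [Finset.mem_product, Finset.mem_range, Finset.mem_range]
    constructor
    · refine Nat.lt_succ_of_le (Nat.le_floor ?_)
      have h2 := Real.log_le_log (by positivity) hi
      rw [Real.log_pow, Real.log_mul (by positivity) hx0.ne'] at h2
      simp only
      have h3 : (i : ℝ) ≤ (Real.log b + Real.log |(e.1 : ℝ)|) / Real.log b := by
        rw [le_div_iff₀ hlogb]
        exact h2
      rwa [add_div, div_self hlogb.ne'] at h3
    · exact Nat.lt_succ_of_le (Nat.le_floor hm)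
  · simp only
    push_cast
    exact hj

/-- **the digits of almost every real number** -/
theorem digits : ∀ᵐ α : ℝ, ∀ b : ℕ, 2 ≤ b → ∀ ε u v : ℝ, 0 ≤ ε → 0 ≤ u → u + g ε < v →
    ∃ c : ℝ, ∀ d x y : ℤ, d ≠ 0 → x ≠ 0 → y ^ 2 = x ^ 3 + d →
      (∃ i m : ℕ, ∃ j : ℤ, (b : ℝ) ^ i ≤ b * |(x : ℝ)| ∧ (m : ℝ) ≤ |(x : ℝ)| ^ u ∧
        |(|(x : ℝ)| / (b : ℝ) ^ i - (b : ℝ) ^ m * α - j)| ≤ |(x : ℝ)| ^ (-v)) →
      Real.log |(x : ℝ)| < (2 + ε) * Real.log |(d : ℝ)| + c := by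
  have key : ∀ᵐ α : ℝ, ∀ (b : ℕ) (p q r : ℚ), 2 ≤ b → (0 : ℝ) ≤ p → (0 : ℝ) ≤ q →
      (q : ℝ) + g p < r → {e | e ∈ Exc p 0 ∧ e ∈ Near b α q r}.Finite := by
    rw [ae_all_iff]
    intro b
    rw [ae_all_iff]
    intro p
    rw [ae_all_iff]
    intro q
    rw [ae_all_iff]
    intro r
    by_cases h : 2 ≤ b ∧ (0 : ℝ) ≤ p ∧ (0 : ℝ) ≤ q ∧ (q : ℝ) + g p < r
    · filter_upwards [near_finite b h.1 h.2.1 h.2.2.1 h.2.2.2] with α hα _ _ _ _
      exact hα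
    · filter_upwards with α h1 h2 h3 h4
      exact absurd ⟨h1, h2, h3, h4⟩ h
  filter_upwards [key] with α hα b hb ε u v hε hu hv
  obtain ⟨p, hp0, hp1, hp2⟩ := exists_rat hε (show g ε < v - u by linarith)
  obtain ⟨q, hq1, hq2⟩ := exists_rat_btwn (show u < v - g p by linarith)
  obtain ⟨r, hr1, hr2⟩ := exists_rat_btwn (show (q : ℝ) + g p < v by linarith)
  have hfin := hα b p q r hb hp0 (hu.trans hq1.le) hr1
  have h1 : {e | e ∈ Exc ε 0 ∧ e ∈ Near b α u v}.Finite := by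
    refine hfin.subset ?_
    rintro e ⟨he, i, m, j, hi, hm, hj⟩
    have hx := one_le_x he.1
    refine ⟨⟨he.1, fun h => he.2 (h.mono hp1 le_rfl he.1)⟩, i, m, j, hi, hm.trans ?_, hj.trans ?_⟩
    · exact Real.rpow_le_rpow_of_exponent_le hx hq1.le
    · exact Real.rpow_le_rpow_of_exponent_le hx (by linarith)
  obtain ⟨c, hc⟩ := exists_const hε h1
  exact ⟨c, fun d x y hd hx hxy h => hc d x y hd hx hxy h⟩

/-- **Theorem.** See the beginning of the file. -/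
theorem result :
    (∀ (X : Type) (μ : OuterMeasure X) (B : ℤ × ℤ → ℕ → Set X) (ε δ C : ℝ), 0 ≤ ε → g ε < δ →
      (∀ e, Point e → ∑' n, μ (B e n) ≤ ENNReal.ofReal (C * |(e.1 : ℝ)| ^ (-δ))) → ∀ c : ℝ,
      μ {z : X | {p : (ℤ × ℤ) × ℕ | (Point p.1 ∧ ¬ Ineq ε c p.1) ∧ z ∈ B p.1 p.2}.Infinite} = 0) ∧
    (∀ (X : Type) [MetricSpace X] (B : ℤ × ℤ → ℕ → Set X) (ε s δ C : ℝ), 0 ≤ ε → 0 < s → g ε < δ →
      (∀ e, Point e → ∑' n, Metric.ediam (B e n) ^ s ≤ ENNReal.ofReal (C * |(e.1 : ℝ)| ^ (-δ))) →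
      ∀ c : ℝ, dimH {z : X | {p : (ℤ × ℤ) × ℕ | (Point p.1 ∧ ¬ Ineq ε c p.1) ∧
        z ∈ B p.1 p.2}.Infinite} ≤ ENNReal.ofReal s) ∧
    (∀ (X : Type) [MetricSpace X] (φ : ℤ × ℤ → X) (ε v : ℝ), 0 ≤ ε → 0 < v →
      ∃ Z : Set X, dimH Z ≤ ENNReal.ofReal (g ε / v) ∧ ∀ z ∉ Z, ∃ c : ℝ, ∀ d x y : ℤ, d ≠ 0 →
        x ≠ 0 → y ^ 2 = x ^ 3 + d → dist (φ (x, y)) z ≤ |(x : ℝ)| ^ (-v) →
        Real.log |(x : ℝ)| < (2 + ε) * Real.log |(d : ℝ)| + c) ∧
    (∀ (Y Ω ι : Type) [PseudoMetricSpace Y] [MeasurableSpace Ω] (P : Measure Ω) (X : ι → Ω → Y)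
      (φ : ι → ℤ × ℤ → Y) (F : ℤ × ℤ → Finset ι) (A K s u v ε : ℝ), 0 ≤ ε → g ε < s * v - u →
      (∀ i y r, 0 < r → P {ω | dist (X i ω) y ≤ r} ≤ ENNReal.ofReal (A * r ^ s)) →
      (∀ e, Point e → ((F e).card : ℝ) ≤ K * |(e.1 : ℝ)| ^ u) →
      ∀ᵐ ω ∂P, ∃ c : ℝ, ∀ d x y : ℤ, d ≠ 0 → x ≠ 0 → y ^ 2 = x ^ 3 + d →
        (∃ i ∈ F (x, y), dist (X i ω) (φ i (x, y)) ≤ |(x : ℝ)| ^ (-v)) →
        Real.log |(x : ℝ)| < (2 + ε) * Real.log |(d : ℝ)| + c) ∧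
    (∀ᵐ α : ℝ, ∀ b : ℕ, 2 ≤ b → ∀ ε u v : ℝ, 0 ≤ ε → 0 ≤ u → u + g ε < v →
      ∃ c : ℝ, ∀ d x y : ℤ, d ≠ 0 → x ≠ 0 → y ^ 2 = x ^ 3 + d →
        (∃ i m : ℕ, ∃ j : ℤ, (b : ℝ) ^ i ≤ b * |(x : ℝ)| ∧ (m : ℝ) ≤ |(x : ℝ)| ^ u ∧
          |(|(x : ℝ)| / (b : ℝ) ^ i - (b : ℝ) ^ m * α - j)| ≤ |(x : ℝ)| ^ (-v)) →
        Real.log |(x : ℝ)| < (2 + ε) * Real.log |(d : ℝ)| + c) := by
  refine ⟨fun X μ B ε δ C hε hδ h c => ?_, fun X _ B ε s δ C hε hs hδ h c => ?_,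
    fun X _ φ ε v hε hv => ?_, fun Y Ω ι _ _ P X φ F A K s u v ε hε hv hX hF => ?_, digits⟩
  · exact (sparse hε c).null (g_pos hε).le μ B hδ fun e he => h e he.1
  · exact (sparse hε c).dim (g_pos hε).le B hs hδ fun e he => h e he.1
  · refine ⟨_, (sparse hε 0).dim_map (g_pos hε).le φ hv, fun z hz => ?_⟩
    rw [Set.mem_ofPred_eq, Set.not_infinite] at hz
    obtain ⟨c, hc⟩ := exists_const (A := {e | dist (φ e) z ≤ |(e.1 : ℝ)| ^ (-v)}) hε hz
    exact ⟨c, fun d x y hd hx hxy h => hc d x y hd hx hxy h⟩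
  · filter_upwards [(sparse hε 0).random (g_pos hε).le P X φ F hX (fun e he => hF e he.1) hv]
      with ω hω
    obtain ⟨c, hc⟩ := exists_const (A := {e | ∃ i ∈ F e, dist (X i ω) (φ i e) ≤
      |(e.1 : ℝ)| ^ (-v)}) hε hω
    exact ⟨c, fun d x y hd hx hxy h => hc d x y hd hx hxy h⟩

end Pool.Agent.Results.MP_9d7cd1_nt.TypicalPoints
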